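import Mathlib

/-!
# Product measures on the subsets of a finite set and the Russo formula
-/

open Finset

set_option autoImplicit false

namespace Pool.Agent.DisjTrans49

variable {U : Type*} [DecidableEq U]

/-- Expectation of `h` over the random subset of `Γ` which contains every element with
probability `p`, independently. -/
noncomputable def EP (Γ : Finset U) (p : ℝ) (h : Finset U → ℝ) : ℝ :=
  ∑ L ∈ Γ.powerset, p ^ L.card * (1 - p) ^ (Γ \ L).card * h L

theorem EP_congr {Γ : Finset U} {p : ℝ} {h k : Finset U → ℝ} (H : ∀ L ⊆ Γ, h L = k L) :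
    EP Γ p h = EP Γ p k := by
  unfold EP
  refine sum_congr rfl fun L hL => ?_
  rw [H L (mem_powerset.1 hL)]

theorem EP_nonneg_weight {Γ L : Finset U} {p : ℝ} (h0 : 0 ≤ p) (h1 : p ≤ 1) :
    0 ≤ p ^ L.card * (1 - p) ^ (Γ \ L).card :=
  mul_nonneg (pow_nonneg h0 _) (pow_nonneg (by linarith) _)

theorem EP_mono {Γ : Finset U} {p : ℝ} (h0 : 0 ≤ p) (h1 : p ≤ 1) {h k : Finset U → ℝ}
    (H : ∀ L ⊆ Γ, h L ≤ k L) : EP Γ p h ≤ EP Γ p k := by
  unfold EP
  refine sum_le_sum fun L hL => ?_
  exact mul_le_mul_of_nonneg_left (H L (mem_powerset.1 hL)) (EP_nonneg_weight h0 h1)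

theorem EP_add (Γ : Finset U) (p : ℝ) (h k : Finset U → ℝ) :
    EP Γ p (fun L => h L + k L) = EP Γ p h + EP Γ p k := by
  unfold EP
  rw [← sum_add_distrib]
  exact sum_congr rfl fun L _ => by ring

theorem EP_sub (Γ : Finset U) (p : ℝ) (h k : Finset U → ℝ) :
    EP Γ p (fun L => h L - k L) = EP Γ p h - EP Γ p k := by
  unfold EP
  rw [← sum_sub_distrib]
  exact sum_congr rfl fun L _ => by ring

theorem EP_mul_left (Γ : Finset U) (p a : ℝ) (h : Finset U → ℝ) :
    EP Γ p (fun L => a * h L) = a * EP Γ p h := by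
  unfold EP
  rw [mul_sum]
  exact sum_congr rfl fun L _ => by ring

theorem EP_sum {ι : Type*} (s : Finset ι) (Γ : Finset U) (p : ℝ) (h : ι → Finset U → ℝ) :
    EP Γ p (fun L => ∑ i ∈ s, h i L) = ∑ i ∈ s, EP Γ p (h i) := by
  unfold EP
  rw [sum_comm]
  exact sum_congr rfl fun L _ => by rw [mul_sum]

theorem EP_empty (p : ℝ) (h : Finset U → ℝ) : EP ∅ p h = h ∅ := by
  simp [EP]

/-- Splitting off one element. -/
theorem EP_insert {Γ : Finset U} {a : U} (ha : a ∉ Γ) (p : ℝ) (h : Finset U → ℝ) :
    EP (insert a Γ) p h = p * EP Γ p (fun L => h (insert a L)) + (1 - p) * EP Γ p h := by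
  unfold EP
  rw [sum_powerset_insert ha, add_comm, mul_sum, mul_sum]
  congr 1
  · refine sum_congr rfl fun L hL => ?_
    have hL' := mem_powerset.1 hL
    have haL : a ∉ L := fun h => ha (hL' h)
    rw [card_insert_of_notMem haL]
    have : insert a Γ \ insert a L = Γ \ L := by
      ext x
      simp only [mem_sdiff, mem_insert, not_or]
      constructor
      · rintro ⟨h1 | h1, h2, h3⟩
        · exact absurd h1 h2
        · exact ⟨h1, h3⟩
      · rintro ⟨h1, h2⟩
        exact ⟨Or.inr h1, fun h => ha (h ▸ h1), h2⟩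
    rw [this]
    ring
  · refine sum_congr rfl fun L hL => ?_
    have hL' := mem_powerset.1 hL
    have haL : a ∉ L := fun h => ha (hL' h)
    have : (insert a Γ \ L).card = (Γ \ L).card + 1 := by
      rw [insert_sdiff_of_notMem _ haL, card_insert_of_notMem]
      exact fun h => ha (mem_sdiff.1 h).1
    rw [this]
    ring

theorem EP_const (Γ : Finset U) (p a : ℝ) : EP Γ p (fun _ => a) = a := by
  induction Γ using Finset.induction_on with
  | empty => simp [EP_empty]
  | insert b Γ hb ih => rw [EP_insert hb, ih]; ring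

theorem EP_zero (Γ : Finset U) (h : Finset U → ℝ) : EP Γ 0 h = h ∅ := by
  induction Γ using Finset.induction_on with
  | empty => simp [EP_empty]
  | insert b Γ hb ih => rw [EP_insert hb, ih]; ring

/-- The Russo formula. -/
theorem hasDerivAt_EP (Γ : Finset U) (h : Finset U → ℝ) (p : ℝ) :
    HasDerivAt (fun q => EP Γ q h)
      (∑ c ∈ Γ, EP Γ p (fun L => h (insert c L) - h (L.erase c))) p := by
  induction Γ using Finset.induction_on generalizing h with
  | empty =>
    simp only [EP_empty, sum_empty]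
    exact hasDerivAt_const p (h ∅)
  | insert a Γ ha ih =>
    have e1 : (fun q => EP (insert a Γ) q h) =
        fun q => q * EP Γ q (fun L => h (insert a L)) + (1 - q) * EP Γ q h := by
      funext q
      exact EP_insert ha q h
    rw [e1]
    have d1 := (hasDerivAt_id p).mul (ih (fun L => h (insert a L)))
    have d2 := ((hasDerivAt_const p (1 : ℝ)).sub (hasDerivAt_id p)).mul (ih h)
    refine HasDerivAt.congr_deriv (d1.add d2) ?_
    symm
    rw [sum_insert ha]
    have e2 : EP (insert a Γ) p (fun L => h (insert a L) - h (L.erase a)) =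
        EP Γ p (fun L => h (insert a L)) - EP Γ p h := by
      rw [EP_insert ha]
      have e3 : EP Γ p (fun L => h (insert a (insert a L)) - h ((insert a L).erase a)) =
          EP Γ p (fun L => h (insert a L) - h L) := by
        refine EP_congr fun L hL => ?_
        have haL : a ∉ L := fun h => ha (hL h)
        rw [insert_idem, erase_insert haL]
      have e4 : EP Γ p (fun L => h (insert a L) - h (L.erase a)) =
          EP Γ p (fun L => h (insert a L) - h L) := by
        refine EP_congr fun L hL => ?_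
        have haL : a ∉ L := fun h => ha (hL h)
        rw [erase_eq_of_notMem haL]
      rw [e3, e4, EP_sub]
      ring
    have e5 : ∑ c ∈ Γ, EP (insert a Γ) p (fun L => h (insert c L) - h (L.erase c)) =
        p * ∑ c ∈ Γ, EP Γ p (fun L => h (insert a (insert c L)) - h (insert a (L.erase c))) +
        (1 - p) * ∑ c ∈ Γ, EP Γ p (fun L => h (insert c L) - h (L.erase c)) := by
      rw [mul_sum, mul_sum, ← sum_add_distrib]
      refine sum_congr rfl fun c hc => ?_
      rw [EP_insert ha]
      congr 2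
      refine EP_congr fun L _ => ?_
      have hca : c ≠ a := fun h => ha (h ▸ hc)
      rw [insert_comm, erase_insert_of_ne hca.symm]
    rw [e2, e5]
    simp only [id, Pi.sub_apply]
    ring

/-- Expectations of antitone functions are antitone in `p`. -/
theorem EP_antitone (Γ : Finset U) (f : Finset U → ℝ)
    (hf : ∀ L M : Finset U, L ⊆ M → M ⊆ Γ → f M ≤ f L) {p q : ℝ} (h0 : 0 ≤ p) (hpq : p ≤ q)
    (h1 : q ≤ 1) : EP Γ q f ≤ EP Γ p f := by
  have hanti : AntitoneOn (fun q => EP Γ q f) (Set.Icc 0 1) := by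
    refine antitoneOn_of_deriv_nonpos (convex_Icc 0 1) ?_ ?_ ?_
    · exact fun x _ => (hasDerivAt_EP Γ f x).continuousAt.continuousWithinAt
    · exact fun x _ => (hasDerivAt_EP Γ f x).differentiableAt.differentiableWithinAt
    · intro x hx
      rw [interior_Icc] at hx
      rw [(hasDerivAt_EP Γ f x).deriv]
      refine sum_nonpos fun c hc => ?_
      have : EP Γ x (fun L => f (insert c L) - f (L.erase c)) ≤ EP Γ x (fun _ => 0) := by
        refine EP_mono hx.1.le hx.2.le fun L hL => ?_
        have h2 := hf (L.erase c) (insert c L) ((erase_subset c L).trans (subset_insert c L))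
          (insert_subset hc hL)
        linarith
      rwa [EP_const] at this
  exact hanti ⟨h0, hpq.trans h1⟩ ⟨h0.trans hpq, h1⟩ hpq

/-- The consequence of the Russo formula which is used: if `lam * f` is bounded by the sum of the
influences of `g` and `f` is antitone, then `p * lam * E_p f` is at most the range of `g`. -/
theorem russo_fail (Γ : Finset U) (f g : Finset U → ℝ) (lam B : ℝ) (hlam : 0 ≤ lam)
    (hf : ∀ L M : Finset U, L ⊆ M → M ⊆ Γ → f M ≤ f L)
    (hg : ∀ L ⊆ Γ, g L ≤ B)
    (h : ∀ L ⊆ Γ, lam * f L ≤ ∑ c ∈ Γ, (g (insert c L) - g (L.erase c)))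
    {p : ℝ} (h0 : 0 ≤ p) (h1 : p ≤ 1) : p * (lam * EP Γ p f) ≤ B - g ∅ := by
  rcases h0.eq_or_lt with rfl | hp
  · have := hg ∅ (empty_subset Γ)
    simpa using this
  · obtain ⟨q, hq, hq'⟩ := exists_hasDerivAt_eq_slope (fun q => EP Γ q g)
      (fun q => ∑ c ∈ Γ, EP Γ q (fun L => g (insert c L) - g (L.erase c))) hp
      (fun x _ => (hasDerivAt_EP Γ g x).continuousAt.continuousWithinAt)
      (fun x _ => hasDerivAt_EP Γ g x)
    have e1 : p * ∑ c ∈ Γ, EP Γ q (fun L => g (insert c L) - g (L.erase c)) =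
        EP Γ p g - g ∅ := by
      rw [hq', EP_zero, sub_zero]
      field_simp
    have e2 : lam * EP Γ q f ≤ ∑ c ∈ Γ, EP Γ q (fun L => g (insert c L) - g (L.erase c)) := by
      rw [← EP_sum, ← EP_mul_left]
      exact EP_mono hq.1.le (hq.2.le.trans h1) h
    have e3 : EP Γ p f ≤ EP Γ q f := EP_antitone Γ f hf hq.1.le hq.2.le h1
    have e4 : EP Γ p g ≤ B := by
      have := EP_mono (Γ := Γ) h0 h1 hg
      rwa [EP_const] at this
    have e5 : lam * EP Γ p f ≤ lam * EP Γ q f := mul_le_mul_of_nonneg_left e3 hlam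
    calc p * (lam * EP Γ p f) ≤ p * ∑ c ∈ Γ, EP Γ q (fun L => g (insert c L) - g (L.erase c)) :=
          mul_le_mul_of_nonneg_left (e5.trans e2) h0
      _ = EP Γ p g - g ∅ := e1
      _ ≤ B - g ∅ := by linarith

/-- Expectation of a product of weights. -/
theorem EP_prod (Γ : Finset U) (p : ℝ) (w : U → ℝ) :
    EP Γ p (fun L => ∏ c ∈ L, w c) = ∏ c ∈ Γ, (1 - p + p * w c) := by
  induction Γ using Finset.induction_on with
  | empty => simp [EP_empty]
  | insert a Γ ha ih =>
    rw [EP_insert ha, prod_insert ha, ih]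
    have : EP Γ p (fun L => ∏ c ∈ insert a L, w c) = w a * EP Γ p (fun L => ∏ c ∈ L, w c) := by
      rw [← EP_mul_left]
      refine EP_congr fun L hL => ?_
      rw [prod_insert fun h => ha (hL h)]
    rw [this, ih]
    ring

/-- Exponential moment of the size of the intersection with a fixed set. -/
theorem EP_exp_inter_le (Γ A : Finset U) {p : ℝ} (h0 : 0 ≤ p) :
    EP Γ p (fun L => Real.exp ((A ∩ L).card : ℝ)) ≤ Real.exp (2 * p * (A.card : ℝ)) := by
  have e1 : EP Γ p (fun L => Real.exp ((A ∩ L).card : ℝ)) =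
      EP Γ p (fun L => ∏ c ∈ L, if c ∈ A then Real.exp 1 else 1) := by
    refine EP_congr fun L _ => ?_
    rw [prod_ite, prod_const, prod_const_one, mul_one, ← Real.exp_nat_mul, mul_one]
    congr 2
    congr 1
    ext x
    simp only [mem_inter, mem_filter]
    tauto
  rw [e1, EP_prod]
  have e2 : ∀ c ∈ Γ, (1 - p + p * (if c ∈ A then Real.exp 1 else 1)) =
      if c ∈ A then (1 + p * (Real.exp 1 - 1)) else 1 := by
    intro c _
    split_ifs <;> ring
  rw [prod_congr rfl e2, prod_ite, prod_const, prod_const_one, mul_one]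
  have he : Real.exp 1 - 1 ≤ 2 := by
    have := Real.exp_one_lt_d9
    linarith
  have he0 : 0 ≤ Real.exp 1 - 1 := by
    have := Real.exp_one_gt_d9
    linarith
  have h2 : 1 + p * (Real.exp 1 - 1) ≤ Real.exp (2 * p) := by
    have h3 := Real.add_one_le_exp (2 * p)
    nlinarith
  calc (1 + p * (Real.exp 1 - 1)) ^ (Γ.filter (· ∈ A)).card
      ≤ Real.exp (2 * p) ^ (Γ.filter (· ∈ A)).card :=
        pow_le_pow_left₀ (by positivity) h2 _
    _ = Real.exp (2 * p * ((Γ.filter (· ∈ A)).card : ℝ)) := by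
        rw [← Real.exp_nat_mul]
        congr 1
        ring
    _ ≤ Real.exp (2 * p * (A.card : ℝ)) := by
        apply Real.exp_le_exp.2
        have h4 : (Γ.filter (· ∈ A)).card ≤ A.card :=
          card_le_card fun x hx => (mem_filter.1 hx).2
        have h5 : ((Γ.filter (· ∈ A)).card : ℝ) ≤ (A.card : ℝ) := by exact_mod_cast h4
        exact mul_le_mul_of_nonneg_left h5 (by linarith)

/-- Some value of `h` is at most its expectation. -/
theorem exists_le_EP (Γ : Finset U) {p : ℝ} (h0 : 0 ≤ p) (h1 : p ≤ 1) (h : Finset U → ℝ)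
    {a : ℝ} (ha : EP Γ p h ≤ a) : ∃ L ⊆ Γ, h L ≤ a := by
  by_contra hcon
  push Not at hcon
  have hne : (Γ.powerset).Nonempty := ⟨∅, by simp⟩
  obtain ⟨L₀, hL₀, hmin⟩ := exists_min_image Γ.powerset h hne
  have h2 : EP Γ p (fun _ => h L₀) ≤ EP Γ p h :=
    EP_mono h0 h1 fun L hL => hmin L (mem_powerset.2 hL)
  rw [EP_const] at h2
  have h3 := hcon L₀ (mem_powerset.1 hL₀)
  linarith

end Pool.Agent.DisjTrans49
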